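import Pool.Agent.Helper91.SY.Heads

/-! Packet SY-B3 (MP_126465_gt). -/

set_option autoImplicit false

open Set Filter Topology
open scoped ContDiff

namespace Pool.Agent.Helper49.SY

open Pool.Agent.Helper91.SY

theorem b3_ : StmtHV → StmtCW → Pool.Agent.Helper91.SY.StmtB3 := by
  intro hHV hCW n η hη f₁ f₂ h1 h2 hpos γ hγ hham ⟨C, hC⟩
  obtain ⟨B, B0, R, -, hS, -, hB, -⟩ := hCW n η hη
  obtain ⟨X1, hX1s, hX1⟩ := hHV (V n) B f₁ hS h1
  obtain ⟨X2, hX2s, hX2⟩ := hHV (V n) B f₂ hS h2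
  have hcont : Continuous fun x => B x (X1 x) (X2 x) :=
    (hS.smooth.continuous.clm_apply hX1s.continuous).clm_apply hX2s.continuous
  have hβ : ∀ x, 0 < B x (X1 x) (X2 x) := by
    intro x
    rw [hB]
    refine hpos x (X1 x) (X2 x) (fun v => ?_) (fun v => ?_)
    · rw [← hB]
      exact hX1 x v
    · rw [← hB]
      exact hX2 x v
  have hder : ∀ t, deriv γ t = X1 (γ t) := by
    intro t
    rw [← sub_eq_zero]
    apply hS.nondeg (γ t)
    intro v
    rw [map_sub, sub_apply, hX1, hB, hham t v, sub_self]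
  have hanti : ∀ x u v, B x u v = - B x v u := by
    intro x u v
    have e := hS.alt x (u + v)
    simp only [map_add, add_apply, hS.alt] at e
    linarith
  have hcomp : IsCompact (Metric.closedBall (0 : V n) C) := isCompact_closedBall _ _
  have hmem : ∀ t, γ t ∈ Metric.closedBall (0 : V n) C := fun t => by
    rw [mem_closedBall_zero_iff]
    exact hC t
  obtain ⟨x0, -, hx0⟩ := hcomp.exists_isMinOn ⟨γ 0, hmem 0⟩ hcont.continuousOn
  set β₀ := B x0 (X1 x0) (X2 x0) with hβ₀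
  have hβ₀pos : 0 < β₀ := hβ x0
  have hmin : ∀ t, β₀ ≤ B (γ t) (X1 (γ t)) (X2 (γ t)) := fun t => hx0 (hmem t)
  obtain ⟨M, hM⟩ := hcomp.exists_bound_of_continuousOn (f := f₂) h2.continuous.continuousOn
  have hgd : ∀ t, HasDerivAt (fun s => f₂ (γ s) + β₀ * s)
      (- B (γ t) (X1 (γ t)) (X2 (γ t)) + β₀) t := by
    intro t
    have e1 : HasFDerivAt f₂ (fderiv ℝ f₂ (γ t)) (γ t) :=
      ((h2.differentiable (by simp)) (γ t)).hasFDerivAt
    have e2 : HasDerivAt γ (X1 (γ t)) t := by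
      rw [← hder t]
      exact (hγ t).hasDerivAt
    have e3 : HasDerivAt (fun s => f₂ (γ s)) (fderiv ℝ f₂ (γ t) (X1 (γ t))) t :=
      e1.comp_hasDerivAt t e2
    rw [← hX2, hanti] at e3
    have e4 : HasDerivAt (fun s : ℝ => β₀ * s) β₀ t := by
      simpa using (hasDerivAt_id t).const_mul β₀
    exact e3.add e4
  have hant : Antitone (fun s => f₂ (γ s) + β₀ * s) := by
    apply antitone_of_deriv_nonpos
    · intro t
      exact (hgd t).differentiableAt
    · intro t
      rw [(hgd t).deriv]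
      linarith [hmin t]
  have hb0 := abs_le.1 (Real.norm_eq_abs (f₂ (γ 0)) ▸ hM _ (hmem 0))
  have hM0 : 0 ≤ M := by linarith [hb0.1, hb0.2]
  set t1 : ℝ := (2 * M + 1) / β₀ with ht1
  have ht1pos : 0 ≤ t1 := by positivity
  have hb1 := abs_le.1 (Real.norm_eq_abs (f₂ (γ t1)) ▸ hM _ (hmem t1))
  have hle := hant ht1pos
  have hmul : β₀ * t1 = 2 * M + 1 := by
    rw [ht1]
    field_simp
  simp only [mul_zero, add_zero] at hle
  rw [hmul] at hle
  linarith [hb0.2, hb1.1]

end Pool.Agent.Helper49.SY
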